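import Pool.Agent.helper4.QS.Spec

/-! GRM of project qs (MP_07c750_an): a Gram matrix from a positive definite function. -/

open scoped BigOperators ComplexOrder ComplexConjugate Topology

namespace Pool.Agent.QS

open Pool.Agent.helper86.CM Filter

theorem GRM_main : GRM_stmt := by
  intro P _ h hb Φ hΦ S c hc
  classical
  have hps := hΦ S.card (fun i => -((S.equivFin.symm i : S) : P))
  obtain ⟨m, v, hv⟩ := Matrix.posSemidef_iff_eq_sum_vecMulVec.1 hps
  refine ⟨m, fun a x => if hx : x ∈ S then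
    ((Real.sqrt c : ℝ) : ℂ) * (starRingEnd ℂ) (v a (S.equivFin ⟨x, hx⟩)) else 0, ?_⟩
  intro x hx y hy
  have h1 := congrFun (congrFun hv (S.equivFin ⟨x, hx⟩)) (S.equivFin ⟨y, hy⟩)
  rw [Matrix.sum_apply] at h1
  simp only [Matrix.of_apply, Equiv.symm_apply_apply, Matrix.vecMulVec_apply, Pi.star_apply] at h1
  rw [hb.negl, hb.negr, neg_neg, neg_sub_neg] at h1
  simp only [dif_pos hx, dif_pos hy]
  rw [mul_assoc, h1, Finset.mul_sum]
  refine Finset.sum_congr rfl fun a _ => ?_
  have h2 : ((Real.sqrt c : ℝ) : ℂ) * ((Real.sqrt c : ℝ) : ℂ) = (c : ℂ) := by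
    rw [← Complex.ofReal_mul, Real.mul_self_sqrt hc]
  rw [map_mul, Complex.conj_conj, Complex.conj_ofReal, ← h2, starRingEnd_apply]
  ring

end Pool.Agent.QS
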