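import Pool.Agent.helper4.QS.Spec

/-! LAC2 of project qs (MP_07c750_an): real lacunarity for a difference of two powers. -/

open scoped BigOperators ComplexOrder ComplexConjugate Topology

namespace Pool.Agent.QS

open Pool.Agent.helper86.CM Filter

theorem LAC2_low (x : ℝ) (hx : 37 / 10 ≤ x) (s : ℕ) (hs : 2 ≤ s) (γ : ℕ → ℤ) :
    ∀ J : ℕ, (∀ j < J, |γ j| ≤ 2) →
      |∑ j ∈ Finset.range J, (γ j : ℝ) * x ^ (s * j)| ≤ 4 / 25 * x ^ (s * J) := by
  have hxs : (1369 / 100 : ℝ) ≤ x ^ s := by
    have h1 : x ^ 2 ≤ x ^ s := pow_le_pow_right₀ (by linarith) hs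
    nlinarith
  intro J
  induction J with
  | zero =>
    intro _
    simp only [Finset.range_zero, Finset.sum_empty, abs_zero, mul_zero, pow_zero, mul_one]
    norm_num
  | succ J ih =>
    intro h
    have h1 := ih fun j hj => h j (Nat.lt_succ_of_lt hj)
    have h2 : |(γ J : ℝ)| ≤ 2 := by exact_mod_cast h J (Nat.lt_succ_self J)
    have hpos : 0 < x ^ (s * J) := by positivity
    rw [Finset.sum_range_succ]
    calc |∑ j ∈ Finset.range J, (γ j : ℝ) * x ^ (s * j) + (γ J : ℝ) * x ^ (s * J)|
        ≤ |∑ j ∈ Finset.range J, (γ j : ℝ) * x ^ (s * j)| + |(γ J : ℝ) * x ^ (s * J)| :=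
          abs_add_le _ _
      _ ≤ 4 / 25 * x ^ (s * J) + 2 * x ^ (s * J) := by
          refine add_le_add h1 ?_
          rw [abs_mul, abs_of_pos hpos]
          exact mul_le_mul_of_nonneg_right h2 hpos.le
      _ ≤ 4 / 25 * x ^ (s * (J + 1)) := by
          rw [Nat.mul_add, mul_one, pow_add]
          nlinarith

theorem LAC2_aux (hL : LAC1_stmt) (x : ℝ) (hx : 37 / 10 ≤ x) (s : ℕ) (hs : 2 ≤ s) (γ : ℕ → ℤ)
    (p q : ℕ) (hqp : q < p) : ∀ J : ℕ, (∀ j < J, |γ j| ≤ 2) →
    x ^ p - x ^ q = ∑ j ∈ Finset.range J, (γ j : ℝ) * x ^ (s * j) →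
    (∃ j < J, p = s * j) ∧ ∃ j < J, q = s * j := by
  have hx0 : (0 : ℝ) < x := by linarith
  have hqp' : x ^ q * x ≤ x ^ p := by
    rw [← pow_succ]
    exact pow_le_pow_right₀ (by linarith) hqp
  have hq0 : 0 < x ^ q := by positivity
  have hp0 : 0 < x ^ p := by positivity
  have hq37 : 37 / 10 * x ^ q ≤ x ^ p := by nlinarith
  intro J
  induction J with
  | zero =>
    intro _ h
    rw [Finset.sum_range_zero] at h
    nlinarith
  | succ J ih =>
    intro hg h
    have hg' : ∀ j < J, |γ j| ≤ 2 := fun j hj => hg j (Nat.lt_succ_of_lt hj)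
    rw [Finset.sum_range_succ] at h
    by_cases hJ : γ J = 0
    · rw [hJ, Int.cast_zero, zero_mul, add_zero] at h
      obtain ⟨⟨i, hi, hi'⟩, j, hj, hj'⟩ := ih hg' h
      exact ⟨⟨i, Nat.lt_succ_of_lt hi, hi'⟩, j, Nat.lt_succ_of_lt hj, hj'⟩
    · have hlow := LAC2_low x hx s hs γ J hg'
      have h2 : |(γ J : ℝ)| ≤ 2 := by exact_mod_cast hg J (Nat.lt_succ_self J)
      have h1 : 1 ≤ |(γ J : ℝ)| := by exact_mod_cast Int.one_le_abs hJ
      have hA : 0 < x ^ (s * J) := by positivity
      have hlow' := abs_le.1 hlow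
      set L := ∑ j ∈ Finset.range J, (γ j : ℝ) * x ^ (s * j) with hLdef
      set A := x ^ (s * J) with hAdef
      have hgA : |(γ J : ℝ) * A| = |(γ J : ℝ)| * A := by rw [abs_mul, abs_of_pos hA]
      have e1 : (γ J : ℝ) * A = x ^ p - x ^ q - L := by linarith
      have e2 : |(γ J : ℝ)| * A = |x ^ p - x ^ q - L| := by rw [← hgA, e1]
      rcases lt_trichotomy p (s * J) with hp | hp | hp
      · exfalso
        have h3 : x ^ p * x ≤ A := by
          rw [hAdef, ← pow_succ]
          exact pow_le_pow_right₀ (by linarith) hp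
        have h4 : |x ^ p - x ^ q - L| ≤ x ^ p + 4 / 25 * A := by
          rw [abs_le]; constructor <;> nlinarith
        nlinarith
      · have h5 : x ^ p = A := by rw [hAdef, hp]
        have h6 : γ J = 1 := by
          have h7 : |(1 - (γ J : ℝ)) * A| < A := by
            have e3 : (1 - (γ J : ℝ)) * A = x ^ q + L := by
              rw [sub_mul, one_mul, e1, h5]; ring
            rw [e3, abs_lt]; constructor <;> nlinarith
          rw [abs_mul, abs_of_pos hA] at h7
          have h8 : |1 - (γ J : ℝ)| < 1 := by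
            by_contra hc
            push Not at hc
            nlinarith
          have h9 : |1 - γ J| < 1 := by exact_mod_cast h8
          have h10 := Int.abs_lt_one_iff.1 h9
          omega
        refine ⟨⟨J, Nat.lt_succ_self J, hp⟩, ?_⟩
        have h11 : x ^ q = ∑ j ∈ Finset.range J, (((fun i => -γ i) j : ℤ) : ℝ) * x ^ (s * j) := by
          have h12 : ∑ j ∈ Finset.range J, (((fun i => -γ i) j : ℤ) : ℝ) * x ^ (s * j) = -L := by
            rw [hLdef, ← Finset.sum_neg_distrib]
            refine Finset.sum_congr rfl fun j _ => ?_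
            push_cast
            ring
          rw [h12]
          rw [h6] at e1
          push_cast at e1
          linarith
        obtain ⟨j, hj, hj'⟩ := hL x hx s J hs (fun i => -γ i) (fun j hj => by
          simpa using hg' j hj) q h11
        exact ⟨j, Nat.lt_succ_of_lt hj, hj'⟩
      · exfalso
        have h3 : A * x ≤ x ^ p := by
          rw [hAdef, ← pow_succ]
          exact pow_le_pow_right₀ (by linarith) hp
        have h4 : x ^ p - x ^ q - 4 / 25 * A ≤ |x ^ p - x ^ q - L| := by
          refine le_trans ?_ (le_abs_self _)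
          linarith
        nlinarith

theorem LAC2_main (hL : LAC1_stmt) : LAC2_stmt := by
  intro x hx s J hs γ hγ p q hqp h
  exact LAC2_aux hL x hx s hs γ p q hqp J hγ h

end Pool.Agent.QS
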