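import Pool.Agent.helper4.QS.Spec

/-! VST of project qs (MP_07c750_an): a block step preserves `IsVec`. -/

open scoped BigOperators ComplexOrder ComplexConjugate Topology

namespace Pool.Agent.QS

open Pool.Agent.helper86.CM Filter

section

variable {Γ P : Type} [AddCommGroup Γ] [AddCommGroup P] {H : Type} [NormedAddCommGroup H]
    [InnerProductSpace ℂ H] {h : Γ → Γ → ℝ}

theorem VST_adj (hb : Bil h) {T : Γ → (H →ₗ[ℂ] H)} (hT : Rep h T) (x : Γ) (v w : H) :
    (inner ℂ (T x v) w : ℂ) = inner ℂ v (T (-x) w) := by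
  have h1 : T x (T (-x) w) = w := by
    rw [hT.mul, hb.negr, hb.self, neg_zero, ee_zero, one_smul, add_neg_cancel, hT.zero]
  have h2 : ∀ a b : H, (inner ℂ (T x a) (T x b) : ℂ) = inner ℂ a b := fun a b =>
    LinearIsometry.inner_map_map (⟨T x, hT.norm x⟩ : H →ₗᵢ[ℂ] H) a b
  conv_lhs => rw [← h1]
  exact h2 _ _

theorem VST_term (hb : Bil h) {T : Γ → (H →ₗ[ℂ] H)} (hT : Rep h T) (a b z : Γ) (w : H) :
    (inner ℂ (T a w) (T z (T b w)) : ℂ) =
      ee (-(h a z) - h b z - h a b) * inner ℂ w (T (z + b - a) w) := by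
  rw [VST_adj hb hT, hT.mul, hT.mul, smul_smul, inner_smul_right, ← ee_add]
  have h1 : -a + z + b = z + b - a := by abel
  have h2 : h (-a) z + h (-a + z) b = -(h a z) - h b z - h a b := by
    rw [hb.addl, hb.negl, hb.negl, hb.skew z b]
    ring
  rw [h1, h2]

end

theorem VST_main : VST_stmt := by
  intro Γ P _ _ H _ _ h hb T hT ι S G E hE hG
  obtain ⟨m, w, hw⟩ := hE
  obtain ⟨p, d, hd⟩ := hG
  refine ⟨p * m, fun q => ∑ x ∈ S, d (finProdFinEquiv.symm q).1 x •
    T (ι x) (w (finProdFinEquiv.symm q).2), ?_⟩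
  intro z
  rw [Equiv.sum_comp finProdFinEquiv.symm (fun q : Fin p × Fin m =>
    (inner ℂ (∑ x ∈ S, d q.1 x • T (ι x) (w q.2)) (T z (∑ x ∈ S, d q.1 x • T (ι x) (w q.2))) : ℂ)),
    Fintype.sum_prod_type]
  have h1 : ∀ (a : Fin p) (l : Fin m),
      (inner ℂ (∑ x ∈ S, d a x • T (ι x) (w l)) (T z (∑ x ∈ S, d a x • T (ι x) (w l))) : ℂ) =
      ∑ x ∈ S, ∑ y ∈ S, (starRingEnd ℂ) (d a x) * d a y *
        (ee (-(h (ι x) z) - h (ι y) z - h (ι x) (ι y)) * inner ℂ (w l) (T (z + ι y - ι x) (w l))) := by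
    intro a l
    rw [map_sum, sum_inner]
    refine Finset.sum_congr rfl fun x _ => ?_
    rw [inner_sum]
    refine Finset.sum_congr rfl fun y _ => ?_
    rw [map_smul, inner_smul_left, inner_smul_right, VST_term hb hT, mul_assoc]
  simp only [h1]
  unfold stepE
  have h2 : ∀ a : Fin p, ∑ l : Fin m, ∑ x ∈ S, ∑ y ∈ S, (starRingEnd ℂ) (d a x) * d a y *
        (ee (-(h (ι x) z) - h (ι y) z - h (ι x) (ι y)) * inner ℂ (w l) (T (z + ι y - ι x) (w l))) =
      ∑ x ∈ S, ∑ y ∈ S, (starRingEnd ℂ) (d a x) * d a y *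
        (ee (-(h (ι x) z) - h (ι y) z - h (ι x) (ι y)) * E (z + ι y - ι x)) := by
    intro a
    rw [Finset.sum_comm]
    refine Finset.sum_congr rfl fun x _ => ?_
    rw [Finset.sum_comm]
    refine Finset.sum_congr rfl fun y _ => ?_
    rw [hw, Finset.mul_sum, Finset.mul_sum]
  simp only [h2]
  symm
  rw [Finset.sum_comm]
  refine Finset.sum_congr rfl fun x hx => ?_
  rw [Finset.sum_comm]
  refine Finset.sum_congr rfl fun y hy => ?_
  rw [← Finset.sum_mul, ← hd x hx y hy, mul_assoc]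

end Pool.Agent.QS
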